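import Pool.Agent.Q73.TG.Stm

/-!
# Project TG of helper73: T12 and T13 (bounds of the square function)
-/

set_option autoImplicit false

open MeasureTheory Set Filter Topology
open scoped ENNReal

namespace Pool.Agent.Q79.TG

open Pool.Agent.Q73.TG

/-! ### binary digits -/

/-- the digits -/
def dg (K : ℕ) (b : Fin K → Bool) (k : ℕ) : ℕ := if h : k < K then (if b ⟨k, h⟩ then 1 else 0) else 0

/-- the number with the first `i` digits -/
def Nn (K : ℕ) (b : Fin K → Bool) : ℕ → ℕ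
  | 0 => 0
  | i + 1 => 2 * Nn K b i + dg K b i

theorem dg_le (K : ℕ) (b : Fin K → Bool) (k : ℕ) : dg K b k ≤ 1 := by
  unfold dg
  split_ifs <;> omega

theorem Nn_bounds (K : ℕ) (b : Fin K → Bool) (i t : ℕ) :
    Nn K b i * 2 ^ t ≤ Nn K b (i + t) ∧ Nn K b (i + t) + 1 ≤ (Nn K b i + 1) * 2 ^ t := by
  induction t with
  | zero => simp
  | succ t ih =>
    have h1 : Nn K b (i + (t + 1)) = 2 * Nn K b (i + t) + dg K b (i + t) := rfl
    have h2 := dg_le K b (i + t)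
    rw [h1, pow_succ]
    constructor
    · nlinarith [ih.1]
    · nlinarith [ih.2]

theorem Nn_mono (K : ℕ) (b b' : Fin K → Bool) (h : Nn K b K ≤ Nn K b' K) {i : ℕ} (hi : i ≤ K) :
    Nn K b i ≤ Nn K b' i := by
  have h1 := (Nn_bounds K b i (K - i)).1
  have h2 := (Nn_bounds K b' i (K - i)).2
  rw [Nat.add_sub_cancel' hi] at h1 h2
  have h3 : Nn K b i * 2 ^ (K - i) < (Nn K b' i + 1) * 2 ^ (K - i) := by omega
  have h4 := Nat.lt_of_mul_lt_mul_right h3
  omega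

theorem Nn_inj (K : ℕ) : Function.Injective (fun b : Fin K → Bool => Nn K b K) := by
  intro b b' h
  have h' : Nn K b K = Nn K b' K := h
  have heq : ∀ i, i ≤ K → Nn K b i = Nn K b' i := fun i hi =>
    le_antisymm (Nn_mono K b b' h'.le hi) (Nn_mono K b' b h'.ge hi)
  funext k
  have h1 := heq (k.1 + 1) k.2
  have h2 := heq k.1 k.2.le
  have h3 : 2 * Nn K b k.1 + dg K b k.1 = 2 * Nn K b' k.1 + dg K b' k.1 := h1
  rw [h2] at h3
  have h4 : dg K b k.1 = dg K b' k.1 := by omega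
  unfold dg at h4
  rw [dif_pos k.2, dif_pos k.2] at h4
  cases hb : b k <;> cases hb' : b' k
  · rfl
  · rw [show b ⟨k.1, k.2⟩ = b k from rfl, show b' ⟨k.1, k.2⟩ = b' k from rfl, hb, hb'] at h4
    simp at h4
  · rw [show b ⟨k.1, k.2⟩ = b k from rfl, show b' ⟨k.1, k.2⟩ = b' k from rfl, hb, hb'] at h4
    simp at h4
  · rfl

/-- partial sums -/
theorem part_sum (K : ℕ) (b : Fin K → Bool) (i : ℕ) :
    ∑ k ∈ Finset.range i, (dg K b k : ℝ) * (1 / 2) ^ (k + 1) = (Nn K b i : ℝ) / 2 ^ i := by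
  induction i with
  | zero => simp [Nn]
  | succ i ih =>
    rw [Finset.sum_range_succ, ih]
    have h1 : Nn K b (i + 1) = 2 * Nn K b i + dg K b i := rfl
    rw [h1]
    push_cast
    rw [pow_succ, pow_succ, one_div, inv_pow]
    field_simp

theorem dsum (n : ℕ) (c : ℕ → ℝ) : ∑ i ∈ Finset.range n, ∑ k ∈ Finset.range i, c k =
    ∑ k ∈ Finset.range n, ((n : ℝ) - (k + 1)) * c k := by
  induction n with
  | zero => simp
  | succ n ih =>
    rw [Finset.sum_range_succ, ih, Finset.sum_range_succ, ← Finset.sum_add_distrib]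
    have h1 : (((n + 1 : ℕ) : ℝ) - (n + 1)) * c n = 0 := by push_cast; ring
    rw [h1, add_zero]
    refine Finset.sum_congr rfl fun k _ => ?_
    push_cast
    ring

theorem aa_eq (K : ℕ) (b : Fin K → Bool) : aa K b = (Nn K b K : ℝ) / 2 ^ K := by
  rw [← part_sum, Finset.sum_range]
  unfold aa
  refine Finset.sum_congr rfl fun k _ => ?_
  unfold dg
  rw [dif_pos k.2]
  split_ifs <;> simp

theorem bb_eq (K : ℕ) (b : Fin K → Bool) :
    bb K b = - ∑ k ∈ Finset.range K, ((k + 1 : ℝ) / K) * ((dg K b k : ℝ) * (1 / 2) ^ (k + 1)) := by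
  rw [Finset.sum_range]
  unfold bb
  congr 1
  refine Finset.sum_congr rfl fun k _ => ?_
  unfold dg xk
  rw [dif_pos k.2]
  split_ifs <;> simp

/-- the sum `aa + bb` -/
theorem ab_eq {K : ℕ} (hK : 1 ≤ K) (b : Fin K → Bool) :
    aa K b + bb K b = (∑ i ∈ Finset.range K, (Nn K b i : ℝ) / 2 ^ i) / K := by
  have hKr : (0 : ℝ) < K := by exact_mod_cast hK
  have h1 : ∑ i ∈ Finset.range K, (Nn K b i : ℝ) / 2 ^ i =
      ∑ i ∈ Finset.range K, ∑ k ∈ Finset.range i, (dg K b k : ℝ) * (1 / 2) ^ (k + 1) :=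
    Finset.sum_congr rfl fun i _ => (part_sum K b i).symm
  rw [h1, dsum, bb_eq, aa_eq, ← part_sum, ← sub_eq_add_neg, ← Finset.sum_sub_distrib, eq_div_iff hKr.ne',
    Finset.sum_mul]
  refine Finset.sum_congr rfl fun k _ => ?_
  field_simp

theorem yy_sub {K : ℕ} (hK : 1 ≤ K) (b b' : Fin K → Bool) (h : Nn K b K ≤ Nn K b' K) {X : ℝ} :
    (X - 1) * (((Nn K b' K : ℝ) - Nn K b K) / 2 ^ K) ≤ yy K b' X - yy K b X := by
  have hKr : (0 : ℝ) < K := by exact_mod_cast hK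
  have h1 : ∀ b : Fin K → Bool, yy K b X = (X - 1) * ((Nn K b K : ℝ) / 2 ^ K) +
      (∑ i ∈ Finset.range K, (Nn K b i : ℝ) / 2 ^ i) / K := by
    intro b
    rw [← ab_eq hK, ← aa_eq]
    unfold yy
    ring
  rw [h1 b, h1 b']
  have h2 : (∑ i ∈ Finset.range K, (Nn K b i : ℝ) / 2 ^ i) / K ≤
      (∑ i ∈ Finset.range K, (Nn K b' i : ℝ) / 2 ^ i) / K := by
    refine div_le_div_of_nonneg_right (Finset.sum_le_sum fun i hi => ?_) hKr.le
    refine div_le_div_of_nonneg_right ?_ (by positivity)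
    exact_mod_cast Nn_mono K b b' h (Finset.mem_range.1 hi).le
  have h3 : (X - 1) * (((Nn K b' K : ℝ) - Nn K b K) / 2 ^ K) =
      (X - 1) * ((Nn K b' K : ℝ) / 2 ^ K) - (X - 1) * ((Nn K b K : ℝ) / 2 ^ K) := by ring
  linarith

theorem yy_abs {K : ℕ} (hK : 1 ≤ K) (b b' : Fin K → Bool) {X : ℝ} :
    (X - 1) * (|(Nn K b' K : ℝ) - Nn K b K| / 2 ^ K) ≤ |yy K b' X - yy K b X| := by
  rcases le_total (Nn K b K) (Nn K b' K) with h | h
  · have h1 := yy_sub hK b b' h (X := X)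
    have h2 : (Nn K b K : ℝ) ≤ Nn K b' K := by exact_mod_cast h
    rw [abs_of_nonneg (show (0 : ℝ) ≤ (Nn K b' K : ℝ) - Nn K b K by linarith)]
    exact h1.trans (le_abs_self _)
  · have h1 := yy_sub hK b' b h (X := X)
    have h2 : (Nn K b' K : ℝ) ≤ Nn K b K := by exact_mod_cast h
    rw [abs_of_nonpos (show (Nn K b' K : ℝ) - Nn K b K ≤ 0 by linarith), neg_sub, abs_sub_comm]
    exact h1.trans (le_abs_self _)

/-! ### bounds of the parameters -/

theorem aa_nonneg (K : ℕ) (b : Fin K → Bool) : 0 ≤ aa K b := by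
  rw [aa_eq]; positivity

theorem aa_le (K : ℕ) (b : Fin K → Bool) : aa K b ≤ 1 := by
  rw [aa_eq, div_le_one (by positivity)]
  have h := (Nn_bounds K b 0 K).2
  rw [zero_add] at h
  have h0 : Nn K b 0 = 0 := rfl
  rw [h0, zero_add, one_mul] at h
  have : Nn K b K ≤ 2 ^ K := by omega
  exact_mod_cast this

theorem bb_nonpos (K : ℕ) (b : Fin K → Bool) : bb K b ≤ 0 := by
  rw [bb_eq, neg_nonpos]
  exact Finset.sum_nonneg fun k _ => by positivity

theorem bb_ge (K : ℕ) (b : Fin K → Bool) : -1 ≤ bb K b := by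
  have h1 := aa_le K b
  rw [bb_eq]
  rw [aa_eq, ← part_sum] at h1
  rw [neg_le_neg_iff]
  refine (Finset.sum_le_sum fun k hk => ?_).trans h1
  rw [Finset.mem_range] at hk
  have hK : (0 : ℝ) < K := by
    have : 0 < K := by omega
    exact_mod_cast this
  refine mul_le_of_le_one_left (by positivity) ?_
  rw [div_le_one hK]
  exact_mod_cast hk

/-- the base of `term` -/
noncomputable def base (K : ℕ) (b : Fin K → Bool) (X Y : ℝ) : ℝ :=
  1 - (yy K b X - Y) ^ 2 / ((1 + (aa K b) ^ 2 + (bb K b) ^ 2) * (1 + X ^ 2 + Y ^ 2))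

theorem term_eq (K : ℕ) (b : Fin K → Bool) (X Y : ℝ) : term K b X Y = base K b X Y ^ (4 ^ K) := rfl

theorem base_nonneg (K : ℕ) (b : Fin K → Bool) (X Y : ℝ) : 0 ≤ base K b X Y := by
  unfold base
  rw [sub_nonneg, div_le_one (by positivity)]
  unfold yy
  nlinarith [sq_nonneg (aa K b - bb K b * X), sq_nonneg (aa K b * Y + X), sq_nonneg (bb K b * Y + 1)]

theorem base_le (K : ℕ) (b : Fin K → Bool) (X Y : ℝ) :
    base K b X Y ≤ 1 - (yy K b X - Y) ^ 2 / (3 * (1 + X ^ 2 + Y ^ 2)) := by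
  unfold base
  have h1 := aa_nonneg K b
  have h2 := aa_le K b
  have h3 := bb_nonpos K b
  have h4 := bb_ge K b
  have h5 : (1 + (aa K b) ^ 2 + (bb K b) ^ 2) ≤ 3 := by nlinarith
  have h6 : (1 + (aa K b) ^ 2 + (bb K b) ^ 2) * (1 + X ^ 2 + Y ^ 2) ≤ 3 * (1 + X ^ 2 + Y ^ 2) :=
    mul_le_mul_of_nonneg_right h5 (by positivity)
  have h7 : (yy K b X - Y) ^ 2 / (3 * (1 + X ^ 2 + Y ^ 2)) ≤
      (yy K b X - Y) ^ 2 / ((1 + (aa K b) ^ 2 + (bb K b) ^ 2) * (1 + X ^ 2 + Y ^ 2)) :=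
    div_le_div_of_nonneg_left (sq_nonneg _) (by positivity) h6
  linarith

theorem term_le_pow (K : ℕ) (b : Fin K → Bool) (X Y r : ℝ)
    (h : 1 - (yy K b X - Y) ^ 2 / (3 * (1 + X ^ 2 + Y ^ 2)) ≤ r) : term K b X Y ≤ r ^ (4 ^ K) := by
  rw [term_eq]
  exact pow_le_pow_left₀ (base_nonneg K b X Y) ((base_le K b X Y).trans h) _

theorem term_le_exp (K : ℕ) (b : Fin K → Bool) (X Y : ℝ) :
    term K b X Y ≤ Real.exp (-((4 : ℝ) ^ K * ((yy K b X - Y) ^ 2 / (3 * (1 + X ^ 2 + Y ^ 2))))) := by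
  have h1 := term_le_pow K b X Y (Real.exp (-((yy K b X - Y) ^ 2 / (3 * (1 + X ^ 2 + Y ^ 2))))) (by
    have := Real.add_one_le_exp (-((yy K b X - Y) ^ 2 / (3 * (1 + X ^ 2 + Y ^ 2))))
    linarith)
  refine h1.trans (le_of_eq ?_)
  rw [← Real.exp_nat_mul]
  push_cast
  ring_nf

theorem FF_le_pow (K : ℕ) (X Y r : ℝ)
    (h : ∀ b : Fin K → Bool, 1 - (yy K b X - Y) ^ 2 / (3 * (1 + X ^ 2 + Y ^ 2)) ≤ r) :
    FF K X Y ≤ 2 ^ K * r ^ (4 ^ K) := by
  unfold FF
  refine (Finset.sum_le_sum fun b _ => term_le_pow K b X Y r (h b)).trans (le_of_eq ?_)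
  rw [Finset.sum_const, Finset.card_univ, Fintype.card_fun, Fintype.card_bool, Fintype.card_fin, nsmul_eq_mul]
  push_cast
  ring

/-- region 3 -/
theorem reg3 (K : ℕ) {X Y : ℝ} (h : 2 * |X| + 2 < |Y|) : FF K X Y ≤ 2 ^ K * (14 / 15) ^ (4 ^ K) := by
  refine FF_le_pow K X Y _ fun b => ?_
  have h1 := aa_nonneg K b
  have h2 := aa_le K b
  have h3 := bb_nonpos K b
  have h4 := bb_ge K b
  have hX := abs_nonneg X
  have h5 : |yy K b X| ≤ |X| + 1 := by
    unfold yy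
    refine (abs_add_le _ _).trans ?_
    rw [abs_mul, abs_of_nonneg h1, abs_of_nonpos h3]
    nlinarith
  have h6 : |Y| / 2 ≤ |yy K b X - Y| := by
    have := abs_sub_abs_le_abs_sub Y (yy K b X)
    rw [abs_sub_comm Y] at this
    linarith
  have h7 : Y ^ 2 / 4 ≤ (yy K b X - Y) ^ 2 := by
    rw [← sq_abs (yy K b X - Y), ← sq_abs Y]
    have := abs_nonneg Y
    nlinarith
  have h8 : 1 + X ^ 2 + Y ^ 2 ≤ 5 / 4 * Y ^ 2 := by
    rw [← sq_abs X, ← sq_abs Y]
    nlinarith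
  have hY : 0 < Y ^ 2 := by
    have : 0 < |Y| := by linarith
    rw [← sq_abs]; positivity
  have h9 : 1 / 15 ≤ (yy K b X - Y) ^ 2 / (3 * (1 + X ^ 2 + Y ^ 2)) := by
    rw [div_le_div_iff₀ (by norm_num) (by positivity)]
    nlinarith
  linarith

/-- region 2 -/
theorem reg2 (K : ℕ) {X Y : ℝ} (hX : 2 < X) (h : 2 * X < |Y|) : FF K X Y ≤ 2 ^ K * (59 / 63) ^ (4 ^ K) := by
  refine FF_le_pow K X Y _ fun b => ?_
  have h1 := aa_nonneg K b
  have h2 := aa_le K b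
  have h3 := bb_nonpos K b
  have h4 := bb_ge K b
  have h5 : |yy K b X| ≤ X := by
    unfold yy
    rw [abs_le]
    constructor <;> nlinarith
  have h6 : |Y| / 2 ≤ |yy K b X - Y| := by
    have := abs_sub_abs_le_abs_sub Y (yy K b X)
    rw [abs_sub_comm Y] at this
    linarith
  have h7 : Y ^ 2 / 4 ≤ (yy K b X - Y) ^ 2 := by
    rw [← sq_abs (yy K b X - Y), ← sq_abs Y]
    have := abs_nonneg Y
    nlinarith
  have h8 : 1 + X ^ 2 + Y ^ 2 ≤ 21 / 16 * Y ^ 2 := by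
    rw [← sq_abs Y]
    nlinarith
  have hY : 0 < Y ^ 2 := by
    have : 0 < |Y| := by linarith
    rw [← sq_abs]; positivity
  have h9 : 4 / 63 ≤ (yy K b X - Y) ^ 2 / (3 * (1 + X ^ 2 + Y ^ 2)) := by
    rw [div_le_div_iff₀ (by norm_num) (by positivity)]
    nlinarith
  linarith

/-- `2^K r^(4^K)` tends to zero -/
theorem tends {r : ℝ} (h0 : 0 < r) (h1 : r < 1) : Tendsto (fun K : ℕ => (2 : ℝ) ^ K * r ^ (4 ^ K)) atTop (𝓝 0) := by
  have h2 : Tendsto (fun n : ℕ => (n : ℝ) * r ^ n) atTop (𝓝 0) :=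
    tendsto_self_mul_const_pow_of_lt_one h0.le h1
  have h3 : Tendsto (fun K : ℕ => 4 ^ K) atTop (atTop : Filter ℕ) := tendsto_pow_atTop_atTop_of_one_lt (by norm_num)
  have h4 := h2.comp h3
  refine squeeze_zero (fun K => by positivity) (fun K => ?_) h4
  simp only [Function.comp_apply]
  push_cast
  refine mul_le_mul_of_nonneg_right ?_ (by positivity)
  exact pow_le_pow_left₀ (by norm_num) (by norm_num) K

theorem bdd {r : ℝ} (h0 : 0 < r) (h1 : r < 1) : ∃ C : ℝ, ∀ K : ℕ, (2 : ℝ) ^ K * r ^ (4 ^ K) ≤ C := by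
  obtain ⟨C, hC⟩ := (tends h0 h1).bddAbove_range
  exact ⟨C, fun K => hC ⟨K, rfl⟩⟩

theorem t13 : T13 := by
  intro η hη
  have h := (tends (r := 14 / 15) (by norm_num) (by norm_num)).eventually_le_const hη
  obtain ⟨K0, hK0⟩ := eventually_atTop.1 h
  exact ⟨K0, fun K hK X Y hXY => (reg3 K hXY).trans (hK0 K hK)⟩

/-- region 1 -/
theorem reg1 : ∃ C : ℝ, ∀ K : ℕ, 1 ≤ K → ∀ X Y : ℝ, 2 < X → |Y| ≤ 2 * X → FF K X Y ≤ C := by
  obtain ⟨r, hr⟩ : ∃ r : ℝ, r = Real.exp (-(1 / 288)) := ⟨_, rfl⟩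
  have hr0 : 0 < r := by rw [hr]; exact Real.exp_pos _
  have hr1 : r < 1 := by rw [hr, ← Real.exp_zero]; exact Real.exp_lt_exp.2 (by norm_num)
  have hsum : Summable (fun n : ℤ => r ^ n.natAbs) := by
    refine Summable.of_nat_of_neg ?_ ?_
    · simpa using summable_geometric_of_lt_one hr0.le hr1
    · simpa using summable_geometric_of_lt_one hr0.le hr1
  refine ⟨∑' n : ℤ, r ^ n.natAbs, fun K hK X Y hX hY => ?_⟩
  classical
  -- the nearest line
  obtain ⟨b0, -, hb0⟩ := Finset.exists_min_image (Finset.univ : Finset (Fin K → Bool))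
    (fun b => |yy K b X - Y|) ⟨fun _ => false, Finset.mem_univ _⟩
  have hterm : ∀ b : Fin K → Bool, term K b X Y ≤ r ^ ((Nn K b K : ℤ) - Nn K b0 K).natAbs := by
    intro b
    have h1 := hb0 b (Finset.mem_univ b)
    have h2 := yy_abs hK b0 b (X := X)
    have h3 : |yy K b X - yy K b0 X| ≤ 2 * |yy K b X - Y| := by
      have h4 : yy K b X - yy K b0 X = (yy K b X - Y) - (yy K b0 X - Y) := by ring
      rw [h4]
      have := abs_sub (yy K b X - Y) (yy K b0 X - Y)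
      linarith
    obtain ⟨j, hj⟩ : ∃ j : ℝ, j = |(Nn K b K : ℝ) - Nn K b0 K| := ⟨_, rfl⟩
    rw [← hj] at h2
    have hj0 : 0 ≤ j := by rw [hj]; exact abs_nonneg _
    have hpos : (0 : ℝ) < 2 ^ K := by positivity
    have h4 : (X - 1) * j / 2 ≤ 2 ^ K * |yy K b X - Y| := by
      have h5 : (X - 1) * (j / 2 ^ K) ≤ 2 * |yy K b X - Y| := h2.trans h3
      rw [mul_div_assoc', div_le_iff₀ hpos] at h5
      linarith
    have h5 : X / 2 * j / 2 ≤ 2 ^ K * |yy K b X - Y| := by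
      refine le_trans ?_ h4
      have : X / 2 * j ≤ (X - 1) * j := mul_le_mul_of_nonneg_right (by linarith) hj0
      linarith
    have h6 : (X * j / 4) ^ 2 ≤ 4 ^ K * (yy K b X - Y) ^ 2 := by
      have h7 : 0 ≤ X * j / 4 := by
        have : 0 ≤ X := by linarith
        positivity
      have h8 : X * j / 4 ≤ 2 ^ K * |yy K b X - Y| := by linarith
      have h9 := pow_le_pow_left₀ h7 h8 2
      rw [mul_pow, sq_abs, ← pow_mul, mul_comm K 2, pow_mul] at h9
      norm_num at h9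
      linarith
    have h7 : 3 * (1 + X ^ 2 + Y ^ 2) ≤ 18 * X ^ 2 := by
      have h8 : Y ^ 2 ≤ 4 * X ^ 2 := by
        rw [← sq_abs Y]
        have := abs_nonneg Y
        nlinarith
      nlinarith
    have h8 : j ^ 2 / 288 ≤ 4 ^ K * ((yy K b X - Y) ^ 2 / (3 * (1 + X ^ 2 + Y ^ 2))) := by
      rw [mul_div_assoc', div_le_div_iff₀ (by norm_num) (by positivity)]
      have h9 : j ^ 2 * (3 * (1 + X ^ 2 + Y ^ 2)) ≤ j ^ 2 * (18 * X ^ 2) :=
        mul_le_mul_of_nonneg_left h7 (sq_nonneg j)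
      nlinarith
    refine (term_le_exp K b X Y).trans ?_
    -- integers
    obtain ⟨z, hz⟩ : ∃ z : ℤ, z = (Nn K b K : ℤ) - Nn K b0 K := ⟨_, rfl⟩
    have hjz : j = ((z.natAbs : ℕ) : ℝ) := by
      rw [hj, hz]
      rw [Nat.cast_natAbs]
      push_cast
      rfl
    rw [← hz, hr, ← Real.exp_nat_mul]
    apply Real.exp_le_exp.2
    have h9 : ((z.natAbs : ℕ) : ℝ) ≤ j ^ 2 := by
      rw [hjz]
      have : z.natAbs ≤ z.natAbs ^ 2 := Nat.le_self_pow (by norm_num) _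
      exact_mod_cast this
    linarith
  unfold FF
  refine (Finset.sum_le_sum fun b _ => hterm b).trans ?_
  have hinj : Function.Injective (fun b : Fin K → Bool => (Nn K b K : ℤ) - Nn K b0 K) := by
    intro b b' h
    apply Nn_inj K
    simp only at h ⊢
    omega
  have h1 : ∑ b : Fin K → Bool, r ^ ((Nn K b K : ℤ) - Nn K b0 K).natAbs =
      ∑ z ∈ Finset.univ.image (fun b : Fin K → Bool => (Nn K b K : ℤ) - Nn K b0 K), r ^ z.natAbs :=
    (Finset.sum_image (f := fun z : ℤ => r ^ z.natAbs) hinj.injOn).symm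
  rw [h1]
  exact hsum.sum_le_tsum _ (fun z _ => by positivity)

theorem t12 : T12 := by
  obtain ⟨C1, h1⟩ := reg1
  obtain ⟨C2, h2⟩ := bdd (r := 59 / 63) (by norm_num) (by norm_num)
  obtain ⟨C3, h3⟩ := bdd (r := 14 / 15) (by norm_num) (by norm_num)
  refine ⟨max 1 (max C1 (max C2 C3)), by positivity, fun K hK X Y hXY => ?_⟩
  have a1 : C1 ≤ max 1 (max C1 (max C2 C3)) := (le_max_left _ _).trans (le_max_right _ _)
  have a2 : C2 ≤ max 1 (max C1 (max C2 C3)) :=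
    (le_max_left _ _).trans ((le_max_right _ _).trans (le_max_right _ _))
  have a3 : C3 ≤ max 1 (max C1 (max C2 C3)) :=
    (le_max_right _ _).trans ((le_max_right _ _).trans (le_max_right _ _))
  rcases hXY with hX | h
  · rcases le_or_gt |Y| (2 * X) with hY | hY
    · exact (h1 K hK X Y hX hY).trans a1
    · exact ((reg2 K hX hY).trans (h2 K)).trans a2
  · exact ((reg3 K h).trans (h3 K)).trans a3

end Pool.Agent.Q79.TG
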