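import Pool.Agent.Q73.TG.Stm

/-!
# Project TG of helper73: T4 (sums of Gaussian beams are eigenfunctions)
-/

set_option autoImplicit false

open MeasureTheory Set Metric Filter Topology
open scoped ENNReal ContDiff

namespace Pool.Agent.Q79.TG

open Pool.Agent.Q73.TG

/-- the Laplacian from the second derivatives along lines -/
theorem lap_lines {V : Type*} [NormedAddCommGroup V] [InnerProductSpace ℝ V] [FiniteDimensional ℝ V]
    {ι : Type*} [Fintype ι] (b : OrthonormalBasis ι ℝ V) {f : V → ℂ} {x : V} (hf : ContDiffAt ℝ 2 f x)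
    (g1 : ι → ℝ → ℂ) (g2 : ι → ℂ) (h1 : ∀ i, ∀ᶠ t in 𝓝 (0 : ℝ), HasDerivAt (fun t : ℝ => f (x + t • b i)) (g1 i t) t)
    (h2 : ∀ i, HasDerivAt (g1 i) (g2 i) 0) : Laplacian.laplacian f x = ∑ i, g2 i := by
  rw [InnerProductSpace.laplacian_eq_iteratedFDeriv_orthonormalBasis f b]
  refine Finset.sum_congr rfl fun i _ => ?_
  rw [iteratedFDeriv_two_apply]
  simp only [Matrix.cons_val_zero, Matrix.cons_val_one]
  have hd1 : ContDiffAt ℝ 1 (fderiv ℝ f) x := hf.fderiv_right (by norm_num)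
  have hd2 : DifferentiableAt ℝ (fderiv ℝ f) x := hd1.differentiableAt (by norm_num)
  have hev : ∀ᶠ y in 𝓝 x, DifferentiableAt ℝ f y :=
    (hf.eventually (by norm_num)).mono fun y hy => hy.differentiableAt (by norm_num)
  have hline : HasDerivAt (fun t : ℝ => x + t • b i) (b i) 0 := by
    have := ((hasDerivAt_id (0 : ℝ)).smul_const (b i)).const_add x
    simpa using this
  have hcont : Tendsto (fun t : ℝ => x + t • b i) (𝓝 0) (𝓝 x) := by
    have := hline.continuousAt.tendsto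
    simpa using this
  have he : ∀ᶠ t in 𝓝 (0 : ℝ), (fderiv ℝ f (x + t • b i)) (b i) = g1 i t := by
    filter_upwards [hcont.eventually hev, h1 i] with t ht ht1
    have hl : HasDerivAt (fun t : ℝ => x + t • b i) (b i) t := by
      have := ((hasDerivAt_id t).smul_const (b i)).const_add x
      simpa using this
    have h3 := ht.hasFDerivAt.comp_hasDerivAt t hl
    exact h3.unique ht1
  have h3 : HasDerivAt (fun t : ℝ => (fderiv ℝ f (x + t • b i)) (b i)) ((fderiv ℝ (fderiv ℝ f) x) (b i) (b i)) 0 := by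
    have hx0 : x + (0 : ℝ) • b i = x := by simp
    have h4 : HasFDerivAt (fderiv ℝ f) (fderiv ℝ (fderiv ℝ f) x) (x + (0 : ℝ) • b i) := by
      rw [hx0]; exact hd2.hasFDerivAt
    have h5 := h4.comp_hasDerivAt (0 : ℝ) hline
    exact h5.clm_apply (hasDerivAt_const (0 : ℝ) (b i)) |>.congr_deriv (by simp)
  exact (h3.congr_of_eventuallyEq (he.mono fun t ht => ht.symm)).unique (h2 i)

/-- the two derivatives of a beam along a line -/
theorem line_deriv (s : ℝ) (A B : ℂ) (l : ℕ) :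
    (∀ᶠ t in 𝓝 (0 : ℝ), HasDerivAt
      (fun t : ℝ => (((1 + 2 * s * t + t ^ 2) ^ (-(l : ℝ) / 2) : ℝ) : ℂ) * (A + t * B) ^ l)
      (((-(l : ℝ) * (s + t) * (1 + 2 * s * t + t ^ 2) ^ (-(l : ℝ) / 2 - 1) : ℝ) : ℂ) * (A + t * B) ^ l +
        (((1 + 2 * s * t + t ^ 2) ^ (-(l : ℝ) / 2) : ℝ) : ℂ) * (l * (A + t * B) ^ (l - 1) * B)) t) ∧
    HasDerivAt (fun t : ℝ => (((-(l : ℝ) * (s + t) * (1 + 2 * s * t + t ^ 2) ^ (-(l : ℝ) / 2 - 1) : ℝ) : ℂ) *
        (A + t * B) ^ l +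
        (((1 + 2 * s * t + t ^ 2) ^ (-(l : ℝ) / 2) : ℝ) : ℂ) * (l * (A + t * B) ^ (l - 1) * B)))
      (((l * (l + 2) * s ^ 2 - l : ℝ) : ℂ) * A ^ l - 2 * l ^ 2 * s * A ^ (l - 1) * B +
        l * ((l - 1 : ℕ) : ℂ) * A ^ (l - 1 - 1) * B ^ 2) 0 := by
  have hN : ∀ t : ℝ, HasDerivAt (fun t : ℝ => 1 + 2 * s * t + t ^ 2) (2 * s + 2 * t) t := by
    intro t
    have h1 := (((hasDerivAt_id t).const_mul (2 * s)).const_add 1).add ((hasDerivAt_id t).pow 2)
    refine h1.congr_deriv ?_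
    simp
  have hlin : ∀ t : ℝ, HasDerivAt (fun t : ℝ => A + (t : ℂ) * B) B t := by
    intro t
    have h1 := ((Complex.ofRealCLM.hasDerivAt (x := t)).mul_const B).const_add A
    refine h1.congr_deriv ?_
    simp
  have hpow : ∀ (k : ℕ) (t : ℝ), HasDerivAt (fun t : ℝ => (A + (t : ℂ) * B) ^ k)
      (k * (A + (t : ℂ) * B) ^ (k - 1) * B) t := fun k t => (hlin t).pow k
  have hN0 : (1 : ℝ) + 2 * s * 0 + 0 ^ 2 ≠ 0 := by norm_num
  constructor
  · have hev : ∀ᶠ t in 𝓝 (0 : ℝ), 1 + 2 * s * t + t ^ 2 ≠ 0 :=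
      (hN 0).continuousAt.eventually_ne hN0
    filter_upwards [hev] with t ht
    have h1 := ((hN t).rpow_const (p := -(l : ℝ) / 2) (Or.inl ht)).ofReal_comp
    refine (h1.mul (hpow l t)).congr_deriv ?_
    push_cast
    ring
  · have h1 := (hN 0).rpow_const (p := -(l : ℝ) / 2 - 1) (Or.inl hN0)
    have h2 : HasDerivAt (fun t : ℝ => -(l : ℝ) * (s + t)) (-(l : ℝ)) 0 := by
      have := ((hasDerivAt_id (0 : ℝ)).const_add s).const_mul (-(l : ℝ))
      refine this.congr_deriv ?_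
      simp
    have h3 := (h2.mul h1).ofReal_comp.mul (hpow l 0)
    have h4 := ((hN 0).rpow_const (p := -(l : ℝ) / 2) (Or.inl hN0)).ofReal_comp
    have h5 := h4.mul (((hpow (l - 1) 0).const_mul (l : ℂ)).mul_const B)
    refine (h3.add h5).congr_deriv ?_
    simp only [mul_zero, add_zero, Complex.ofReal_zero, zero_mul]
    norm_num
    ring

/-- the complex linear form -/
noncomputable def LL {m : ℕ} (u v y : E m) : ℂ :=
  ((inner ℝ u y : ℝ) : ℂ) + Complex.I * ((inner ℝ v y : ℝ) : ℂ)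

theorem LL_add {m : ℕ} (u v x y : E m) (t : ℝ) : LL u v (x + t • y) = LL u v x + t * LL u v y := by
  unfold LL
  rw [inner_add_right, inner_add_right, inner_smul_right, inner_smul_right]
  push_cast
  ring

theorem LL_smul {m : ℕ} (u v y : E m) (t : ℝ) : LL u v (t • y) = t * LL u v y := by
  unfold LL
  rw [inner_smul_right, inner_smul_right]
  push_cast
  ring

/-- the homogeneous extension of degree zero of the sum of beams -/
noncomputable def Fm {m : ℕ} {ι : Type} [Fintype ι] (u v : ι → E m) (c : ι → ℂ) (l : ℕ) (y : E m) : ℂ :=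
  ∑ i, c i * ((((‖y‖ ^ 2) ^ (-(l : ℝ) / 2) : ℝ) : ℂ) * LL (u i) (v i) y ^ l)

theorem ext_eq {m : ℕ} {ι : Type} [Fintype ι] (u v : ι → E m) (c : ι → ℂ) (l : ℕ) {y : E m} (hy : y ≠ 0) :
    Pool.Agent.Q73.TG.ext (fun x : Sph m => ∑ i, c i *
      (((inner ℝ (u i) (x : E m) : ℝ) : ℂ) + Complex.I * ((inner ℝ (v i) (x : E m) : ℝ) : ℂ)) ^ l) y =
      Fm u v c l y := by
  unfold Pool.Agent.Q73.TG.ext Fm
  rw [dif_neg hy]
  refine Finset.sum_congr rfl fun i _ => ?_
  congr 1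
  have h1 : (((inner ℝ (u i) ((proj y hy : Sph m) : E m) : ℝ) : ℂ) +
      Complex.I * ((inner ℝ (v i) ((proj y hy : Sph m) : E m) : ℝ) : ℂ)) = LL (u i) (v i) (‖y‖⁻¹ • y) := rfl
  rw [h1, LL_smul, mul_pow]
  congr 1
  have hn : 0 < ‖y‖ := norm_pos_iff.2 hy
  rw [← Complex.ofReal_pow]
  congr 1
  rw [← Real.rpow_natCast, ← Real.rpow_natCast, ← Real.rpow_mul hn.le, Real.inv_rpow hn.le, ← Real.rpow_neg hn.le]
  congr 1
  push_cast
  ring

theorem Fm_smooth {m : ℕ} {ι : Type} [Fintype ι] (u v : ι → E m) (c : ι → ℂ) (l : ℕ) {y : E m} (hy : y ≠ 0) :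
    ContDiffAt ℝ ∞ (Fm u v c l) y := by
  unfold Fm LL
  refine ContDiffAt.sum fun i _ => ?_
  refine contDiffAt_const.mul (ContDiffAt.mul ?_ (ContDiffAt.pow (ContDiffAt.add ?_ (contDiffAt_const.mul ?_)) l))
  · refine Complex.ofRealCLM.contDiff.contDiffAt.comp y ?_
    exact ((contDiff_norm_sq ℝ).contDiffAt).rpow_const_of_ne (by
      have : 0 < ‖y‖ := norm_pos_iff.2 hy
      positivity)
  · refine Complex.ofRealCLM.contDiff.contDiffAt.comp y ?_
    exact (contDiff_const.inner ℝ contDiff_id).contDiffAt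
  · refine Complex.ofRealCLM.contDiff.contDiffAt.comp y ?_
    exact (contDiff_const.inner ℝ contDiff_id).contDiffAt

theorem t4 : T4 := by
  intro m ι _ u v c l hl hm hu hv huv
  have hloc : ∀ {y : E m}, y ≠ 0 → Pool.Agent.Q73.TG.ext (fun x : Sph m => ∑ i, c i *
      (((inner ℝ (u i) (x : E m) : ℝ) : ℂ) + Complex.I * ((inner ℝ (v i) (x : E m) : ℝ) : ℂ)) ^ l) =ᶠ[𝓝 y]
      Fm u v c l := by
    intro y hy
    filter_upwards [isOpen_compl_singleton.mem_nhds hy] with z hz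
    exact ext_eq u v c l hz
  refine ⟨fun y hy => ((Fm_smooth u v c l hy).congr_of_eventuallyEq (hloc hy)).contDiffWithinAt, fun x => ?_⟩
  have hx1 : ‖(x : E m)‖ = 1 := norm_eq_of_mem_sphere x
  have hx0 : (x : E m) ≠ 0 := by
    intro h
    rw [h, norm_zero] at hx1
    exact zero_ne_one hx1
  unfold lap
  rw [(InnerProductSpace.laplacian_congr_nhds (hloc hx0)).self_of_nhds]
  obtain ⟨b, hb⟩ : ∃ b, b = EuclideanSpace.basisFun (Fin (m + 1)) ℝ := ⟨_, rfl⟩
  have hbn : ∀ j, ‖b j‖ = 1 := fun j => b.norm_eq_one j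
  -- the norm on the lines
  have hnorm : ∀ j (t : ℝ), ‖(x : E m) + t • b j‖ ^ 2 = 1 + 2 * (inner ℝ (x : E m) (b j)) * t + t ^ 2 := by
    intro j t
    rw [norm_add_sq_real, hx1, inner_smul_right, norm_smul, hbn j, mul_one, Real.norm_eq_abs, sq_abs]
    ring
  rw [lap_lines b ((Fm_smooth u v c l hx0).of_le (WithTop.coe_le_coe.2 (le_top : (2 : ℕ∞) ≤ ⊤)))
    (fun j t => ∑ i, c i * ((((-(l : ℝ) * ((inner ℝ (x : E m) (b j)) + t) *
      (1 + 2 * (inner ℝ (x : E m) (b j)) * t + t ^ 2) ^ (-(l : ℝ) / 2 - 1) : ℝ) : ℂ) *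
        (LL (u i) (v i) x + t * LL (u i) (v i) (b j)) ^ l +
        (((1 + 2 * (inner ℝ (x : E m) (b j)) * t + t ^ 2) ^ (-(l : ℝ) / 2) : ℝ) : ℂ) *
          (l * (LL (u i) (v i) x + t * LL (u i) (v i) (b j)) ^ (l - 1) * LL (u i) (v i) (b j)))))
    (fun j => ∑ i, c i * ((((l * (l + 2) * (inner ℝ (x : E m) (b j)) ^ 2 - l : ℝ) : ℂ) * LL (u i) (v i) x ^ l -
      2 * l ^ 2 * ((inner ℝ (x : E m) (b j) : ℝ) : ℂ) * LL (u i) (v i) x ^ (l - 1) * LL (u i) (v i) (b j) +
        l * ((l - 1 : ℕ) : ℂ) * LL (u i) (v i) x ^ (l - 1 - 1) * LL (u i) (v i) (b j) ^ 2)))]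
  · -- the sum
    rw [Finset.sum_comm]
    have hlam : ((Real.sqrt ((l : ℝ) * (l + m - 1)) : ℝ) : ℂ) ^ 2 = (l : ℂ) * (l + m - 1) := by
      rw [← Complex.ofReal_pow, Real.sq_sqrt]
      · push_cast; ring
      · have h1 : (1 : ℝ) ≤ l := by exact_mod_cast hl
        have h2 : (1 : ℝ) ≤ m := by exact_mod_cast hm
        have : 0 ≤ (l : ℝ) + m - 1 := by linarith
        positivity
    rw [hlam, Finset.mul_sum, ← Finset.sum_neg_distrib]
    refine Finset.sum_congr rfl fun i _ => ?_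
    rw [← Finset.mul_sum]
    -- the three sums
    have hip : ∀ (w : E m) (j : Fin (m + 1)), (inner ℝ w (b j) : ℝ) = w j := by
      intro w j
      rw [hb, EuclideanSpace.basisFun_apply, EuclideanSpace.inner_single_right]
      simp
    have s1 : ∑ j, ((inner ℝ (x : E m) (b j) : ℝ) : ℂ) ^ 2 = 1 := by
      have h1 : ∑ j, (inner ℝ (x : E m) (b j) : ℝ) ^ 2 = 1 := by
        have h2 := EuclideanSpace.norm_sq_eq (x : E m)
        rw [hx1] at h2
        simp only [hip]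
        rw [one_pow] at h2
        rw [h2]
        exact Finset.sum_congr rfl fun j _ => by rw [Real.norm_eq_abs, sq_abs]
      have h3 := congrArg (fun r : ℝ => (r : ℂ)) h1
      push_cast at h3
      exact h3
    have hin : ∀ w z : E m, ∑ j, (w j) * (z j) = (inner ℝ w z : ℝ) := by
      intro w z
      rw [PiLp.inner_apply]
      exact Finset.sum_congr rfl fun j _ => by simp [mul_comm]
    have hLL : ∀ j, LL (u i) (v i) (b j) = ((u i j : ℝ) : ℂ) + Complex.I * ((v i j : ℝ) : ℂ) := by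
      intro j
      unfold LL
      rw [hip, hip]
    have s2 : ∑ j, ((inner ℝ (x : E m) (b j) : ℝ) : ℂ) * LL (u i) (v i) (b j) = LL (u i) (v i) x := by
      simp only [hLL, hip]
      unfold LL
      rw [← hin (u i) x, ← hin (v i) x]
      push_cast
      rw [Finset.mul_sum, ← Finset.sum_add_distrib]
      refine Finset.sum_congr rfl fun j _ => ?_
      ring
    have s3 : ∑ j, LL (u i) (v i) (b j) ^ 2 = 0 := by
      simp only [hLL]
      have h1 : ∀ j, (((u i j : ℝ) : ℂ) + Complex.I * ((v i j : ℝ) : ℂ)) ^ 2 =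
          (((u i j * u i j : ℝ) : ℂ) - ((v i j * v i j : ℝ) : ℂ)) + 2 * Complex.I * ((u i j * v i j : ℝ) : ℂ) := by
        intro j
        push_cast
        linear_combination (((v i j : ℝ) : ℂ) ^ 2) * Complex.I_sq
      simp only [h1]
      rw [Finset.sum_add_distrib, Finset.sum_sub_distrib, ← Finset.mul_sum, ← Complex.ofReal_sum,
        ← Complex.ofReal_sum, ← Complex.ofReal_sum, hin, hin, hin, huv i, real_inner_self_eq_norm_sq,
        real_inner_self_eq_norm_sq, hu i, hv i]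
      simp
    have e1 : ∀ j, ((l * (l + 2) * (inner ℝ (x : E m) (b j)) ^ 2 - l : ℝ) : ℂ) * LL (u i) (v i) x ^ l -
      2 * l ^ 2 * ((inner ℝ (x : E m) (b j) : ℝ) : ℂ) * LL (u i) (v i) x ^ (l - 1) * LL (u i) (v i) (b j) +
        l * ((l - 1 : ℕ) : ℂ) * LL (u i) (v i) x ^ (l - 1 - 1) * LL (u i) (v i) (b j) ^ 2 =
        (l * (l + 2) * LL (u i) (v i) x ^ l) * ((inner ℝ (x : E m) (b j) : ℝ) : ℂ) ^ 2 -
        (l * LL (u i) (v i) x ^ l) -
        (2 * l ^ 2 * LL (u i) (v i) x ^ (l - 1)) * (((inner ℝ (x : E m) (b j) : ℝ) : ℂ) * LL (u i) (v i) (b j)) +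
        (l * ((l - 1 : ℕ) : ℂ) * LL (u i) (v i) x ^ (l - 1 - 1)) * LL (u i) (v i) (b j) ^ 2 := by
      intro j
      push_cast
      ring
    simp only [e1]
    rw [Finset.sum_add_distrib, Finset.sum_sub_distrib, Finset.sum_sub_distrib, Finset.sum_const,
      Finset.card_univ, Fintype.card_fin, nsmul_eq_mul, ← Finset.mul_sum,
      ← Finset.mul_sum, ← Finset.mul_sum, s1, s2, s3]
    have hpw : LL (u i) (v i) x ^ (l - 1) * LL (u i) (v i) x = LL (u i) (v i) x ^ l := by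
      rw [← pow_succ]
      congr 1
      omega
    have hx2 : (((inner ℝ (u i) (x : E m) : ℝ) : ℂ) + Complex.I * ((inner ℝ (v i) (x : E m) : ℝ) : ℂ)) =
        LL (u i) (v i) x := rfl
    rw [hx2]
    push_cast
    linear_combination (2 * (l : ℂ) ^ 2 * c i) * hpw
  · intro j
    have hev := (line_deriv (inner ℝ (x : E m) (b j)) 0 0 l).1
    have hall : ∀ᶠ t in 𝓝 (0 : ℝ), ∀ i, HasDerivAt
      (fun t : ℝ => (((1 + 2 * (inner ℝ (x : E m) (b j)) * t + t ^ 2) ^ (-(l : ℝ) / 2) : ℝ) : ℂ) *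
        (LL (u i) (v i) x + t * LL (u i) (v i) (b j)) ^ l)
      (((-(l : ℝ) * ((inner ℝ (x : E m) (b j)) + t) *
        (1 + 2 * (inner ℝ (x : E m) (b j)) * t + t ^ 2) ^ (-(l : ℝ) / 2 - 1) : ℝ) : ℂ) *
          (LL (u i) (v i) x + t * LL (u i) (v i) (b j)) ^ l +
        (((1 + 2 * (inner ℝ (x : E m) (b j)) * t + t ^ 2) ^ (-(l : ℝ) / 2) : ℝ) : ℂ) *
          (l * (LL (u i) (v i) x + t * LL (u i) (v i) (b j)) ^ (l - 1) * LL (u i) (v i) (b j))) t :=
      Filter.eventually_all.2 fun i => (line_deriv _ _ _ l).1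
    filter_upwards [hall] with t ht
    have h1 : (fun t : ℝ => Fm u v c l ((x : E m) + t • b j)) = fun t : ℝ => ∑ i, c i *
        ((((1 + 2 * (inner ℝ (x : E m) (b j)) * t + t ^ 2) ^ (-(l : ℝ) / 2) : ℝ) : ℂ) *
        (LL (u i) (v i) x + t * LL (u i) (v i) (b j)) ^ l) := by
      funext t
      unfold Fm
      refine Finset.sum_congr rfl fun i _ => ?_
      rw [hnorm, LL_add]
    rw [h1]
    exact HasDerivAt.fun_sum fun i _ => (ht i).const_mul (c i)
  · intro j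
    exact HasDerivAt.fun_sum fun i _ => ((line_deriv _ _ _ l).2).const_mul (c i)

end Pool.Agent.Q79.TG
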