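import Pool.Agent.Q73.TG.Stm

/-!
# Project TG of helper73: T7 (polar coordinates with Gaussian weight)
-/

set_option autoImplicit false

open MeasureTheory Set Metric
open scoped ENNReal

namespace Pool.Agent.Q79.TG

open Pool.Agent.Q73.TG

/-- polar coordinates for lower Lebesgue integrals -/
theorem polar (m : ℕ) (F : E m → ℝ≥0∞) (g : Sph m → ℝ≥0∞) (h : ℝ → ℝ≥0∞) (hg : Measurable g)
    (hh : Measurable h) (hF : ∀ (s : Sph m) (r : ℝ), 0 < r → F (r • (s : E m)) = g s * h r) :
    ∫⁻ x : E m, F x = (∫⁻ x : Sph m, g x ∂(vol m)) * ∫⁻ r in Ioi (0 : ℝ), ENNReal.ofReal (r ^ m) * h r := by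
  have hdim : Module.finrank ℝ (E m) - 1 = m := by simp [E]
  calc ∫⁻ x : E m, F x
      = ∫⁻ x : ({(0 : E m)}ᶜ : Set (E m)), F x.1 ∂((volume : Measure (E m)).comap (↑)) := by
        rw [lintegral_subtype_comap (measurableSet_singleton _).compl F, restrict_compl_singleton]
    _ = ∫⁻ p, g p.1 * h (p.2 : ℝ)
          ∂((volume : Measure (E m)).toSphere.prod (.volumeIoiPow (Module.finrank ℝ (E m) - 1))) := by
        have h1 := (volume : Measure (E m)).measurePreserving_homeomorphUnitSphereProd.lintegral_comp_emb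
          (Homeomorph.measurableEmbedding _)
          (fun p : (sphere (0 : E m) 1) × (Ioi (0 : ℝ)) => g p.1 * h (p.2 : ℝ))
        rw [← h1]
        refine lintegral_congr fun x => ?_
        rw [← hF _ _ (homeomorphUnitSphereProd (E m) x).2.2]
        congr 1
        rw [homeomorphUnitSphereProd_apply_snd_coe, homeomorphUnitSphereProd_apply_fst_coe, smul_smul,
          mul_inv_cancel₀ (norm_ne_zero_iff.2 x.2), one_smul]
    _ = (∫⁻ x : Sph m, g x ∂(vol m)) *
          ∫⁻ y : Ioi (0 : ℝ), h (y : ℝ) ∂(.volumeIoiPow (Module.finrank ℝ (E m) - 1)) := by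
        rw [lintegral_prod_mul (f := g) (g := fun y : Ioi (0 : ℝ) => h y) hg.aemeasurable
          (hh.comp measurable_subtype_coe).aemeasurable]
        rfl
    _ = _ := by
        congr 1
        rw [hdim, Measure.volumeIoiPow, lintegral_withDensity_eq_lintegral_mul₀]
        · simp only [Pi.mul_apply]
          rw [lintegral_subtype_comap measurableSet_Ioi (fun a : ℝ => ENNReal.ofReal (a ^ m) * h a)]
        · exact (((measurable_subtype_coe.pow_const _)).ennreal_ofReal).aemeasurable
        · exact (hh.comp measurable_subtype_coe).aemeasurable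

theorem gauss_int (m : ℕ) (d : ℝ) (hd : 0 ≤ d) :
    ∫⁻ r in Ioi (0 : ℝ), ENNReal.ofReal (r ^ m) * (ENNReal.ofReal (r ^ d) * ENNReal.ofReal (Real.exp (-r ^ 2))) =
      ENNReal.ofReal (Real.Gamma (((m : ℝ) + 1 + d) / 2) / 2) := by
  have h1 : ∫⁻ r in Ioi (0 : ℝ), ENNReal.ofReal (r ^ m) *
      (ENNReal.ofReal (r ^ d) * ENNReal.ofReal (Real.exp (-r ^ 2))) =
      ∫⁻ r in Ioi (0 : ℝ), ENNReal.ofReal (r ^ ((m : ℝ) + d) * Real.exp (-r ^ (2 : ℝ))) := by
    refine setLIntegral_congr_fun measurableSet_Ioi fun r hr => ?_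
    have hr' : (0 : ℝ) < r := hr
    rw [← ENNReal.ofReal_mul (by positivity), ← ENNReal.ofReal_mul (by positivity)]
    congr 1
    rw [Real.rpow_add hr', Real.rpow_natCast, Real.rpow_two]
    ring
  rw [h1, ← ofReal_integral_eq_lintegral_ofReal]
  · rw [integral_rpow_mul_exp_neg_rpow (by norm_num) (by
      have : (0 : ℝ) ≤ m := Nat.cast_nonneg _
      linarith)]
    congr 1
    have e : ((m : ℝ) + d + 1) / 2 = ((m : ℝ) + 1 + d) / 2 := by ring
    rw [e]
    ring
  · exact integrableOn_rpow_mul_exp_neg_rpow (by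
      have : (0 : ℝ) ≤ m := Nat.cast_nonneg _
      linarith) (by norm_num)
  · rw [Filter.EventuallyLE, ae_restrict_iff' measurableSet_Ioi]
    filter_upwards with r hr
    have hr' : (0 : ℝ) < r := hr
    simp only [Pi.zero_apply]
    positivity

theorem t7 : T7 := by
  intro m d hd G hG hhom
  rw [← gauss_int m d hd]
  refine polar m (fun x => G x * ENNReal.ofReal (Real.exp (-‖x‖ ^ 2))) (fun x => G (x : E m))
    (fun r => ENNReal.ofReal (r ^ d) * ENNReal.ofReal (Real.exp (-r ^ 2))) (hG.comp measurable_subtype_coe)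
    (by fun_prop) ?_
  intro s r hr
  rw [hhom r hr, norm_smul, Real.norm_of_nonneg hr.le, norm_eq_of_mem_sphere s, mul_one]
  ring

end Pool.Agent.Q79.TG
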