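import Pool.Agent.Q79.TG.T7

/-!
# Project TG of helper73: T8 (chart of `S²`)
-/

set_option autoImplicit false

open MeasureTheory Set Metric
open scoped ENNReal

namespace Pool.Agent.Q79.TG

open Pool.Agent.Q73.TG

/-- the point with the coordinates `w 0, w 1, t` -/
noncomputable def pw (p : ℝ × (Fin 2 → ℝ)) : E 2 := WithLp.toLp 2 ![p.2 0, p.2 1, p.1]

theorem pw_mp : MeasurePreserving pw volume volume := by
  have h1 := (PiLp.volume_preserving_toLp (Fin 3)).comp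
    ((volume_preserving_piFinSuccAbove (fun _ : Fin 3 => ℝ) 2).symm)
  have h2 : (WithLp.toLp 2 ∘ (MeasurableEquiv.piFinSuccAbove (fun _ : Fin 3 => ℝ) 2).symm :
      ℝ × (Fin 2 → ℝ) → E 2) = pw := by
    funext p
    refine congrArg (WithLp.toLp 2) (funext fun i => ?_)
    fin_cases i <;> rfl
  rw [← h2]
  exact h1

theorem pw_norm (p : ℝ × (Fin 2 → ℝ)) : ‖pw p‖ ^ 2 = p.1 ^ 2 + p.2 0 ^ 2 + p.2 1 ^ 2 := by
  rw [EuclideanSpace.norm_sq_eq, Fin.sum_univ_three]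
  simp [pw]
  ring

theorem pw_smul (t : ℝ) (w : Fin 2 → ℝ) : pw (t, t • w) = t • pw (1, w) := by
  refine congrArg (WithLp.toLp 2) (funext fun i => ?_)
  fin_cases i <;> simp [pw]

theorem lint_smul (g : (Fin 2 → ℝ) → ℝ≥0∞) (hg : Measurable g) {t : ℝ} (ht : t ≠ 0) :
    ∫⁻ w : Fin 2 → ℝ, g w = ENNReal.ofReal (t ^ 2) * ∫⁻ w : Fin 2 → ℝ, g (t • w) := by
  have h1 := Measure.map_addHaar_smul (volume : Measure (Fin 2 → ℝ)) ht
  have h2 : ∫⁻ w : Fin 2 → ℝ, g (t • w) = ∫⁻ w, g w ∂(Measure.map (fun w : Fin 2 → ℝ => t • w) volume) :=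
    (lintegral_map hg (measurable_const_smul t)).symm
  rw [h2, h1, lintegral_smul_measure, smul_eq_mul, ← mul_assoc, ← ENNReal.ofReal_mul (by positivity)]
  have h3 : t ^ 2 * |(t ^ Module.finrank ℝ (Fin 2 → ℝ))⁻¹| = 1 := by
    rw [Module.finrank_fin_fun, abs_inv, abs_of_nonneg (sq_nonneg t)]
    field_simp
  rw [h3, ENNReal.ofReal_one, one_mul]

theorem inner_int {c : ℝ} (hc : 0 < c) :
    ∫⁻ t : ℝ, ENNReal.ofReal (t ^ 2) * ENNReal.ofReal (Real.exp (-(t ^ 2 * c))) =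
      2 * (ENNReal.ofReal (c ^ (-(3 / 2) : ℝ)) * ENNReal.ofReal (Real.Gamma (3 / 2) / 2)) := by
  have h1 : ∀ t : ℝ, ENNReal.ofReal (t ^ 2) * ENNReal.ofReal (Real.exp (-(t ^ 2 * c))) =
      ENNReal.ofReal ((fun s : ℝ => s ^ (2 : ℝ) * Real.exp (-c * s ^ (2 : ℝ))) |t|) := by
    intro t
    rw [← ENNReal.ofReal_mul (sq_nonneg t)]
    congr 1
    simp only [Real.rpow_two, sq_abs]
    congr 2
    ring
  simp only [h1]
  have hi : Integrable (fun t : ℝ => (fun s : ℝ => s ^ (2 : ℝ) * Real.exp (-c * s ^ (2 : ℝ))) |t|) := by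
    have h2 := integrable_rpow_mul_exp_neg_mul_sq hc (s := 2) (by norm_num)
    refine h2.congr (Filter.Eventually.of_forall fun t => ?_)
    simp only [Real.rpow_two, sq_abs]
  rw [← ofReal_integral_eq_lintegral_ofReal hi (Filter.Eventually.of_forall fun t => by
    simp only [Pi.zero_apply]
    positivity), integral_comp_abs (f := fun s : ℝ => s ^ (2 : ℝ) * Real.exp (-c * s ^ (2 : ℝ))),
    integral_rpow_mul_exp_neg_mul_rpow (by norm_num) (by norm_num) hc]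
  have h2 : (2 : ℝ≥0∞) = ENNReal.ofReal 2 := by norm_num
  rw [h2, ← ENNReal.ofReal_mul (by positivity), ← ENNReal.ofReal_mul (by norm_num)]
  congr 1
  have e1 : (-(2 + 1) / 2 : ℝ) = -(3 / 2) := by norm_num
  have e2 : ((2 : ℝ) + 1) / 2 = 3 / 2 := by norm_num
  rw [e1, e2]
  ring

theorem t8 : T8 := by
  intro F hF hhom
  have h7 := t7 2 0 le_rfl F hF (fun t ht x => by
    rw [hhom t ht.ne', Real.rpow_zero, ENNReal.ofReal_one, one_mul])
  obtain ⟨γ, hγ⟩ : ∃ γ : ℝ, γ = Real.Gamma (3 / 2) / 2 := ⟨_, rfl⟩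
  have hγ0 : 0 < γ := by
    have := Real.Gamma_pos_of_pos (show (0 : ℝ) < 3 / 2 by norm_num)
    rw [hγ]; positivity
  have e0 : (((2 : ℕ) : ℝ) + 1 + 0) / 2 = 3 / 2 := by norm_num
  rw [e0, ← hγ] at h7
  have hγE : ENNReal.ofReal γ ≠ 0 := (ENNReal.ofReal_pos.2 hγ0).ne'
  rw [← ENNReal.mul_left_inj hγE ENNReal.ofReal_ne_top, ← h7]
  have hm : Measurable (fun x : E 2 => F x * ENNReal.ofReal (Real.exp (-‖x‖ ^ 2))) :=
    hF.mul (by fun_prop)
  have hpwm : Measurable pw := pw_mp.measurable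
  rw [← pw_mp.lintegral_comp hm]
  have e1 : ∫⁻ p : ℝ × (Fin 2 → ℝ), F (pw p) * ENNReal.ofReal (Real.exp (-‖pw p‖ ^ 2)) =
      ∫⁻ t : ℝ, ∫⁻ w : Fin 2 → ℝ, F (pw (t, w)) * ENNReal.ofReal (Real.exp (-‖pw (t, w)‖ ^ 2)) :=
    lintegral_prod _ ((hm.comp hpwm).aemeasurable)
  rw [e1]
  -- substitution
  have e2 : ∫⁻ t : ℝ, ∫⁻ w : Fin 2 → ℝ, F (pw (t, w)) * ENNReal.ofReal (Real.exp (-‖pw (t, w)‖ ^ 2)) =
      ∫⁻ t : ℝ, ∫⁻ w : Fin 2 → ℝ, F (pw (1, w)) * (ENNReal.ofReal (t ^ 2) *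
        ENNReal.ofReal (Real.exp (-(t ^ 2 * (1 + w 0 ^ 2 + w 1 ^ 2))))) := by
    have hne : ∀ᵐ t : ℝ, t ≠ 0 := by
      rw [ae_iff]
      simp only [not_not]
      have : {a : ℝ | a = 0} = {0} := rfl
      rw [this]
      exact measure_singleton _
    refine lintegral_congr_ae ?_
    filter_upwards [hne] with t ht
    have hm2 : Measurable (fun w : Fin 2 → ℝ => F (pw (t, w)) * ENNReal.ofReal (Real.exp (-‖pw (t, w)‖ ^ 2))) :=
      (hm.comp hpwm).comp measurable_prodMk_left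
    rw [lint_smul _ hm2 ht, ← lintegral_const_mul]
    · refine lintegral_congr fun w => ?_
      rw [pw_norm, pw_smul, hhom t ht]
      have e3 : (t, t • w).1 ^ 2 + (t, t • w).2 0 ^ 2 + (t, t • w).2 1 ^ 2 =
          t ^ 2 * (1 + w 0 ^ 2 + w 1 ^ 2) := by
        simp only [Pi.smul_apply, smul_eq_mul]
        ring
      rw [e3]
      ring
    · exact hm2.comp (measurable_const_smul t)
  rw [e2, lintegral_lintegral_swap]
  swap
  · refine Measurable.aemeasurable ?_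
    refine Measurable.mul ?_ (by fun_prop)
    exact (hF.comp hpwm).comp (by fun_prop : Measurable fun p : ℝ × (Fin 2 → ℝ) => ((1 : ℝ), p.2))
  have hFm : Measurable (fun w : Fin 2 → ℝ => F (pw (1, w))) := (hF.comp hpwm).comp measurable_prodMk_left
  have e4 : ∀ w : Fin 2 → ℝ, ∫⁻ t : ℝ, F (pw (1, w)) * (ENNReal.ofReal (t ^ 2) *
        ENNReal.ofReal (Real.exp (-(t ^ 2 * (1 + w 0 ^ 2 + w 1 ^ 2))))) =
      2 * ENNReal.ofReal γ * (ENNReal.ofReal ((1 + w 0 ^ 2 + w 1 ^ 2) ^ (-(3 / 2) : ℝ)) * F (pw (1, w))) := by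
    intro w
    rw [lintegral_const_mul _ (by fun_prop), inner_int (by positivity), hγ]
    ring
  simp only [e4]
  have hρ : Measurable (fun w : Fin 2 → ℝ => ENNReal.ofReal ((1 + w 0 ^ 2 + w 1 ^ 2) ^ (-(3 / 2) : ℝ)) *
      F (pw (1, w))) := Measurable.mul (by fun_prop) hFm
  rw [lintegral_const_mul _ hρ]
  -- the chart
  have hFpt : Measurable (fun z : ℝ × ℝ => F (pt z.1 z.2)) := by
    have : (fun z : ℝ × ℝ => F (pt z.1 z.2)) = fun z : ℝ × ℝ => F (pw (1, ![z.1, z.2])) := by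
      funext z
      rfl
    rw [this]
    refine hFm.comp ?_
    refine measurable_pi_iff.2 fun i => ?_
    fin_cases i
    · exact measurable_fst
    · exact measurable_snd
  have hρ2 : Measurable (fun z : ℝ × ℝ => ENNReal.ofReal ((1 + z.1 ^ 2 + z.2 ^ 2) ^ (-(3 / 2) : ℝ))) := by
    fun_prop
  have e5 : ∫⁻ w : Fin 2 → ℝ, ENNReal.ofReal ((1 + w 0 ^ 2 + w 1 ^ 2) ^ (-(3 / 2) : ℝ)) * F (pw (1, w)) =
      ∫⁻ z : ℝ × ℝ, F (pt z.1 z.2) ∂muC := by
    unfold muC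
    rw [lintegral_withDensity_eq_lintegral_mul _ hρ2 hFpt]
    rw [← (volume_preserving_finTwoArrow ℝ).lintegral_comp (hρ2.mul hFpt)]
    rfl
  rw [e5]
  ring

end Pool.Agent.Q79.TG
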