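import Pool.Agent.Q79.TG.T7

/-!
# Project TG of helper73: T9 and T10 (from `S²` to `S^(n+2)`)
-/

set_option autoImplicit false

open MeasureTheory Set Metric
open scoped ENNReal

namespace Pool.Agent.Q79.TG

open Pool.Agent.Q73.TG

/-- index equivalence -/
def ie (n : ℕ) : Fin 3 ⊕ Fin n ≃ Fin (n + 2 + 1) := finSumFinEquiv.trans (finCongr (by omega))

/-- the point with the first three coordinates `p.1` and the other coordinates `p.2` -/
noncomputable def psi (n : ℕ) (p : (Fin 3 → ℝ) × (Fin n → ℝ)) : E (n + 2) :=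
  WithLp.toLp 2 ((MeasurableEquiv.piCongrLeft (fun _ => ℝ) (ie n))
    ((MeasurableEquiv.sumPiEquivProdPi (fun _ => ℝ)).symm p))

theorem psi_mp (n : ℕ) : MeasurePreserving (psi n) volume volume :=
  (PiLp.volume_preserving_toLp (Fin (n + 2 + 1))).comp
    ((volume_measurePreserving_piCongrLeft (fun _ => ℝ) (ie n)).comp
      (volume_measurePreserving_sumPiEquivProdPi_symm (fun _ => ℝ)))

theorem psi_inl (n : ℕ) (p : (Fin 3 → ℝ) × (Fin n → ℝ)) (i : Fin 3) : psi n p (ie n (Sum.inl i)) = p.1 i := by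
  change Equiv.piCongrLeft (fun _ => ℝ) (ie n) _ (ie n (Sum.inl i)) = _
  rw [Equiv.piCongrLeft_apply_apply]
  rfl

theorem psi_inr (n : ℕ) (p : (Fin 3 → ℝ) × (Fin n → ℝ)) (i : Fin n) : psi n p (ie n (Sum.inr i)) = p.2 i := by
  change Equiv.piCongrLeft (fun _ => ℝ) (ie n) _ (ie n (Sum.inr i)) = _
  rw [Equiv.piCongrLeft_apply_apply]
  rfl

theorem pi3_psi (n : ℕ) (p : (Fin 3 → ℝ) × (Fin n → ℝ)) : pi3 (psi n p) = WithLp.toLp 2 p.1 := by
  refine congrArg (WithLp.toLp 2) (funext fun i => ?_)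
  have h : (Fin.castLE (by omega) i : Fin (n + 2 + 1)) = ie n (Sum.inl i) := by
    apply Fin.ext
    simp [ie]
  rw [h, psi_inl]

theorem norm_psi (n : ℕ) (p : (Fin 3 → ℝ) × (Fin n → ℝ)) :
    ‖psi n p‖ ^ 2 = ‖(WithLp.toLp 2 p.1 : E 2)‖ ^ 2 + ∑ i, p.2 i ^ 2 := by
  rw [EuclideanSpace.norm_sq_eq, EuclideanSpace.norm_sq_eq, ← (ie n).sum_comp, Fintype.sum_sum_type]
  have h1 : ∀ i : Fin 3, ‖psi n p (ie n (Sum.inl i))‖ ^ 2 = ‖p.1 i‖ ^ 2 := fun i => by rw [psi_inl]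
  have h2 : ∀ i : Fin n, ‖psi n p (ie n (Sum.inr i))‖ ^ 2 = p.2 i ^ 2 := fun i => by
    rw [psi_inr, Real.norm_eq_abs, sq_abs]
  simp only [h1, h2]

/-- Gaussian weight -/
noncomputable def gw (n : ℕ) (b : ℝ) (z : Fin n → ℝ) : ℝ≥0∞ := ENNReal.ofReal (Real.exp (-b * ∑ i, z i ^ 2))

theorem gw_meas (n : ℕ) (b : ℝ) : Measurable (gw n b) := by
  unfold gw
  fun_prop

theorem gw_fin (n : ℕ) {b : ℝ} (hb : 0 < b) : ∫⁻ z : Fin n → ℝ, gw n b z < ⊤ := by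
  have h1 : Integrable (fun z : Fin n → ℝ => ∏ i, Real.exp (-b * z i ^ 2)) :=
    Integrable.fintype_prod (f := fun (_ : Fin n) (x : ℝ) => Real.exp (-b * x ^ 2))
      (fun _ => integrable_exp_neg_mul_sq hb)
  have h2 := h1.lintegral_lt_top
  refine lt_of_le_of_lt (le_of_eq (lintegral_congr fun z => ?_)) h2
  unfold gw
  rw [Finset.mul_sum, Real.exp_sum]

theorem gw_pos (n : ℕ) (b : ℝ) : 0 < ∫⁻ z : Fin n → ℝ, gw n b z := by
  rw [lintegral_pos_iff_support (gw_meas n b)]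
  have : Function.support (gw n b) = univ := by
    ext z
    simp only [Function.mem_support, mem_univ, iff_true]
    unfold gw
    exact (ENNReal.ofReal_pos.2 (Real.exp_pos _)).ne'
  rw [this]
  exact NeZero.pos _

/-- second moment -/
noncomputable def kk (n : ℕ) : ℝ≥0∞ := ∫⁻ z : Fin n → ℝ, ENNReal.ofReal (∑ i, z i ^ 2) * gw n 1 z

theorem kk_fin (n : ℕ) : kk n < ⊤ := by
  have h1 : kk n ≤ ∫⁻ z : Fin n → ℝ, ENNReal.ofReal 2 * gw n (1 / 2) z := by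
    refine lintegral_mono fun z => ?_
    unfold gw
    rw [← ENNReal.ofReal_mul (Finset.sum_nonneg fun i _ => sq_nonneg _), ← ENNReal.ofReal_mul (by norm_num)]
    refine ENNReal.ofReal_le_ofReal ?_
    obtain ⟨x, hx⟩ : ∃ x, x = ∑ i, z i ^ 2 := ⟨_, rfl⟩
    rw [← hx]
    have h2 : x ≤ 2 * Real.exp (x / 2) := by
      have := Real.add_one_le_exp (x / 2)
      linarith
    have h3 : Real.exp (-(1 / 2) * x) = Real.exp (x / 2) * Real.exp (-1 * x) := by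
      rw [← Real.exp_add]; congr 1; ring
    rw [h3, ← mul_assoc]
    exact mul_le_mul_of_nonneg_right h2 (Real.exp_pos _).le
  refine lt_of_le_of_lt h1 ?_
  rw [lintegral_const_mul _ (gw_meas n _)]
  exact ENNReal.mul_lt_top ENNReal.ofReal_lt_top (gw_fin n (by norm_num))

/-- the integral over `E 2` -/
theorem lint_toLp {g : E 2 → ℝ≥0∞} (hg : Measurable g) :
    ∫⁻ y : Fin 3 → ℝ, g (WithLp.toLp 2 y) = ∫⁻ y : E 2, g y :=
  (PiLp.volume_preserving_toLp (Fin 3)).lintegral_comp hg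

theorem pi3_meas (n : ℕ) : Measurable (pi3 : E (n + 2) → E 2) := by
  have : Continuous (pi3 : E (n + 2) → E 2) := by
    unfold pi3
    refine (PiLp.continuous_toLp 2 _).comp ?_
    refine continuous_pi fun i => ?_
    exact (continuous_apply _).comp (PiLp.continuous_ofLp 2 _)
  exact this.measurable

theorem pi3_smul' {n : ℕ} (t : ℝ) (x : E (n + 2)) : pi3 (t • x) = t • pi3 x := by
  ext i; simp [pi3]

/-- the Gaussian integral of a function of the first three coordinates -/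
theorem full (n : ℕ) {G : E 2 → ℝ≥0∞} (hG : Measurable G) :
    ∫⁻ x : E (n + 2), G (pi3 x) * ENNReal.ofReal (Real.exp (-‖x‖ ^ 2)) =
      (∫⁻ z : Fin n → ℝ, gw n 1 z) * ∫⁻ y : E 2, G y * ENNReal.ofReal (Real.exp (-‖y‖ ^ 2)) := by
  have hm : Measurable (fun x : E (n + 2) => G (pi3 x) * ENNReal.ofReal (Real.exp (-‖x‖ ^ 2))) :=
    (hG.comp (pi3_meas n)).mul (by fun_prop)
  have hg1 : Measurable (fun y : E 2 => G y * ENNReal.ofReal (Real.exp (-‖y‖ ^ 2))) :=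
    hG.mul (by fun_prop)
  rw [← (psi_mp n).lintegral_comp hm, ← lint_toLp hg1, mul_comm]
  have h1 : ∀ p : (Fin 3 → ℝ) × (Fin n → ℝ),
      G (pi3 (psi n p)) * ENNReal.ofReal (Real.exp (-‖psi n p‖ ^ 2)) =
      (G (WithLp.toLp 2 p.1) * ENNReal.ofReal (Real.exp (-‖(WithLp.toLp 2 p.1 : E 2)‖ ^ 2))) * gw n 1 p.2 := by
    intro p
    rw [pi3_psi, norm_psi, neg_add, Real.exp_add, ENNReal.ofReal_mul (Real.exp_pos _).le, gw, neg_one_mul]
    ring
  simp only [h1]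
  exact lintegral_prod_mul (f := fun y : Fin 3 → ℝ => G (WithLp.toLp 2 y) *
    ENNReal.ofReal (Real.exp (-‖(WithLp.toLp 2 y : E 2)‖ ^ 2))) (g := gw n 1)
    (hg1.comp (PiLp.continuous_toLp 2 _).measurable).aemeasurable (gw_meas n 1).aemeasurable

theorem gam_pos (m : ℕ) {d : ℝ} (hd : 0 ≤ d) : 0 < Real.Gamma (((m : ℝ) + 1 + d) / 2) / 2 := by
  have h : (0 : ℝ) ≤ m := Nat.cast_nonneg _
  have := Real.Gamma_pos_of_pos (show 0 < ((m : ℝ) + 1 + d) / 2 by linarith)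
  positivity

theorem t9 : T9 := by
  intro n d hd
  obtain ⟨c, hc⟩ : ∃ c : ℝ, c = (∫⁻ z : Fin n → ℝ, gw n 1 z).toReal := ⟨_, rfl⟩
  have hcE : (∫⁻ z : Fin n → ℝ, gw n 1 z) = ENNReal.ofReal c := by
    rw [hc, ENNReal.ofReal_toReal (gw_fin n one_pos).ne]
  have hc0 : 0 < c := by
    rw [hc]
    exact ENNReal.toReal_pos (gw_pos n 1).ne' (gw_fin n one_pos).ne
  obtain ⟨γ, hγ⟩ : ∃ γ : ℝ, γ = Real.Gamma ((((n + 2 : ℕ) : ℝ) + 1 + d) / 2) / 2 := ⟨_, rfl⟩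
  obtain ⟨γ', hγ'⟩ : ∃ γ' : ℝ, γ' = Real.Gamma ((((2 : ℕ) : ℝ) + 1 + d) / 2) / 2 := ⟨_, rfl⟩
  have hγ0 : 0 < γ := by rw [hγ]; exact gam_pos (n + 2) hd
  have hγ0' : 0 < γ' := by rw [hγ']; exact gam_pos 2 hd
  refine ⟨c * γ' / γ, by positivity, fun G hG hhom => ?_⟩
  have h1 := t7 (n + 2) d hd (fun x => G (pi3 x)) (hG.comp (pi3_meas n)) (fun t ht x => by
    rw [pi3_smul', hhom t ht])
  have h2 := t7 2 d hd G hG hhom
  rw [full n hG, h2, hcE, ← hγ, ← hγ'] at h1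
  have hγE : ENNReal.ofReal γ ≠ 0 := (ENNReal.ofReal_pos.2 hγ0).ne'
  have h3 : ENNReal.ofReal (c * γ' / γ) * ENNReal.ofReal γ = ENNReal.ofReal c * ENNReal.ofReal γ' := by
    rw [← ENNReal.ofReal_mul (by positivity), ← ENNReal.ofReal_mul hc0.le]
    congr 1
    field_simp
  rw [← ENNReal.mul_left_inj hγE ENNReal.ofReal_ne_top, ← h1]
  calc ENNReal.ofReal c * ((∫⁻ x : Sph 2, G (x : E 2) ∂(vol 2)) * ENNReal.ofReal γ')
      = (ENNReal.ofReal c * ENNReal.ofReal γ') * ∫⁻ x : Sph 2, G (x : E 2) ∂(vol 2) := by ring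
    _ = _ := by rw [← h3]; ring

theorem t10 : T10 := by
  intro n
  obtain ⟨c, hc⟩ : ∃ c : ℝ, c = (∫⁻ z : Fin n → ℝ, gw n 1 z).toReal := ⟨_, rfl⟩
  have hcE : (∫⁻ z : Fin n → ℝ, gw n 1 z) = ENNReal.ofReal c := by
    rw [hc, ENNReal.ofReal_toReal (gw_fin n one_pos).ne]
  have hc0 : 0 < c := by
    rw [hc]
    exact ENNReal.toReal_pos (gw_pos n 1).ne' (gw_fin n one_pos).ne
  obtain ⟨k, hk⟩ : ∃ k : ℝ, k = (kk n).toReal := ⟨_, rfl⟩
  have hkE : kk n = ENNReal.ofReal k := by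
    rw [hk, ENNReal.ofReal_toReal (kk_fin n).ne]
  have hk0 : 0 ≤ k := by rw [hk]; exact ENNReal.toReal_nonneg
  refine ⟨2 * k / c + 1, by positivity, fun d hd G hG hhom => ?_⟩
  have hd0 : 0 ≤ d := by linarith
  obtain ⟨γ, hγ⟩ : ∃ γ : ℝ, γ = Real.Gamma ((((n + 2 : ℕ) : ℝ) + 1 + d) / 2) / 2 := ⟨_, rfl⟩
  have hγ0 : 0 < γ := by rw [hγ]; exact gam_pos (n + 2) hd0
  have hγE : ENNReal.ofReal γ ≠ 0 := (ENNReal.ofReal_pos.2 hγ0).ne'
  -- the cone
  obtain ⟨D, hD⟩ : ∃ D : Set (E (n + 2)), D = {x | 2 * ‖pi3 x‖ ^ 2 < ‖x‖ ^ 2} := ⟨_, rfl⟩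
  have hDm : MeasurableSet D := by
    rw [hD]
    exact measurableSet_lt (((pi3_meas n).norm.pow_const 2).const_mul 2) (measurable_norm.pow_const 2)
  obtain ⟨H, hH⟩ : ∃ H : E (n + 2) → ℝ≥0∞, H = D.indicator (fun x => G (pi3 x)) := ⟨_, rfl⟩
  have hHm : Measurable H := by
    rw [hH]
    exact (hG.comp (pi3_meas n)).indicator hDm
  have hDs : ∀ t : ℝ, 0 < t → ∀ x : E (n + 2), t • x ∈ D ↔ x ∈ D := by
    intro t ht x
    rw [hD, mem_ofPred_eq, mem_ofPred_eq, pi3_smul', norm_smul, norm_smul, mul_pow, mul_pow]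
    have h1 : 0 < ‖t‖ ^ 2 := by
      have : 0 < ‖t‖ := norm_pos_iff.2 ht.ne'
      positivity
    constructor
    · intro h
      have : ‖t‖ ^ 2 * (2 * ‖pi3 x‖ ^ 2) < ‖t‖ ^ 2 * ‖x‖ ^ 2 := by linarith
      exact lt_of_mul_lt_mul_left this h1.le
    · intro h
      have := mul_lt_mul_of_pos_left h h1
      linarith
  have hHhom : ∀ t : ℝ, 0 < t → ∀ x, H (t • x) = ENNReal.ofReal (t ^ d) * H x := by
    intro t ht x
    rw [hH]
    by_cases hx : x ∈ D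
    · rw [indicator_of_mem ((hDs t ht x).2 hx), indicator_of_mem hx, pi3_smul', hhom t ht]
    · rw [indicator_of_notMem (fun h => hx ((hDs t ht x).1 h)), indicator_of_notMem hx, mul_zero]
  have h1 := t7 (n + 2) d hd0 H hHm hHhom
  have h2 := t7 (n + 2) d hd0 (fun x => G (pi3 x)) (hG.comp (pi3_meas n)) (fun t ht x => by
    rw [pi3_smul', hhom t ht])
  rw [full n hG, hcE, ← hγ] at h2
  rw [← hγ] at h1
  -- the left side
  have h3 : ∫⁻ x in {x : Sph (n + 2) | ‖pi3 (x : E (n + 2))‖ ^ 2 < 1 / 2}, G (pi3 (x : E (n + 2))) ∂(vol (n + 2)) =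
      ∫⁻ x : Sph (n + 2), H (x : E (n + 2)) ∂(vol (n + 2)) := by
    have hms : MeasurableSet {x : Sph (n + 2) | ‖pi3 (x : E (n + 2))‖ ^ 2 < 1 / 2} :=
      measurableSet_lt ((((pi3_meas n).comp measurable_subtype_coe).norm.pow_const 2)) measurable_const
    rw [← lintegral_indicator hms]
    refine lintegral_congr fun x => ?_
    have hx : ‖(x : E (n + 2))‖ = 1 := norm_eq_of_mem_sphere x
    rw [hH, indicator, indicator]
    simp only [mem_ofPred_eq, hD, hx]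
    have : (‖pi3 (x : E (n + 2))‖ ^ 2 < 1 / 2) ↔ (2 * ‖pi3 (x : E (n + 2))‖ ^ 2 < 1 ^ 2) := by
      constructor <;> intro h <;> linarith
    simp only [this]
  rw [h3]
  -- the function `G |y|^(-2)`
  obtain ⟨G', hG'⟩ : ∃ G' : E 2 → ℝ≥0∞, G' = fun y => G y * ENNReal.ofReal ((‖y‖ ^ 2)⁻¹) := ⟨_, rfl⟩
  have hG'm : Measurable G' := by
    rw [hG']
    exact hG.mul (by fun_prop)
  have h4 := t7 2 (d - 2) (by linarith) G' hG'm (fun t ht x => by
    rw [hG']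
    simp only
    rw [hhom t ht, norm_smul, Real.norm_of_nonneg ht.le, mul_pow, mul_inv, ENNReal.ofReal_mul (by positivity)]
    have e1 : ENNReal.ofReal (t ^ (d - 2)) = ENNReal.ofReal (t ^ d) * ENNReal.ofReal ((t ^ 2)⁻¹) := by
      rw [← ENNReal.ofReal_mul (by positivity), Real.rpow_sub ht, Real.rpow_two, div_eq_mul_inv]
    rw [e1]
    ring)
  have h5 := t7 2 d hd0 G hG hhom
  have h6 : ∫⁻ x : Sph 2, G' (x : E 2) ∂(vol 2) = ∫⁻ x : Sph 2, G (x : E 2) ∂(vol 2) := by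
    refine lintegral_congr fun x => ?_
    have hx : ‖(x : E 2)‖ = 1 := norm_eq_of_mem_sphere x
    rw [hG']
    simp only [hx]
    norm_num
  obtain ⟨g1, hg1⟩ : ∃ g1 : ℝ, g1 = Real.Gamma ((((2 : ℕ) : ℝ) + 1 + (d - 2)) / 2) / 2 := ⟨_, rfl⟩
  have hg10 : 0 < g1 := by rw [hg1]; exact gam_pos 2 (by linarith)
  have hg2 : Real.Gamma ((((2 : ℕ) : ℝ) + 1 + d) / 2) / 2 = (d + 1) / 2 * g1 := by
    have e1 : (((2 : ℕ) : ℝ) + 1 + d) / 2 = (((2 : ℕ) : ℝ) + 1 + (d - 2)) / 2 + 1 := by push_cast; ring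
    have e2 : (((2 : ℕ) : ℝ) + 1 + (d - 2)) / 2 = (d + 1) / 2 := by push_cast; ring
    rw [e1, Real.Gamma_add_one (by rw [e2]; positivity), hg1, e2]
    ring
  rw [h6, ← hg1] at h4
  rw [hg2, ENNReal.ofReal_mul (by positivity)] at h5
  -- the estimate
  have hm : Measurable (fun x : E (n + 2) => H x * ENNReal.ofReal (Real.exp (-‖x‖ ^ 2))) :=
    hHm.mul (by fun_prop)
  have hg3 : Measurable (fun y : E 2 => G' y * ENNReal.ofReal (Real.exp (-‖y‖ ^ 2))) :=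
    hG'm.mul (by fun_prop)
  have hss : Measurable (fun z : Fin n → ℝ => ENNReal.ofReal (∑ i, z i ^ 2) * gw n 1 z) :=
    Measurable.mul (by fun_prop) (gw_meas n 1)
  have h7 : ∫⁻ x : E (n + 2), H x * ENNReal.ofReal (Real.exp (-‖x‖ ^ 2)) ≤
      ENNReal.ofReal k * ∫⁻ y : E 2, G' y * ENNReal.ofReal (Real.exp (-‖y‖ ^ 2)) := by
    rw [← (psi_mp n).lintegral_comp hm, ← lint_toLp hg3, mul_comm, ← hkE]
    have h8 : (∫⁻ y : Fin 3 → ℝ, G' (WithLp.toLp 2 y) *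
        ENNReal.ofReal (Real.exp (-‖(WithLp.toLp 2 y : E 2)‖ ^ 2))) * kk n =
        ∫⁻ p : (Fin 3 → ℝ) × (Fin n → ℝ), (G' (WithLp.toLp 2 p.1) *
        ENNReal.ofReal (Real.exp (-‖(WithLp.toLp 2 p.1 : E 2)‖ ^ 2))) *
          (ENNReal.ofReal (∑ i, p.2 i ^ 2) * gw n 1 p.2) :=
      (lintegral_prod_mul (f := fun y : Fin 3 → ℝ => G' (WithLp.toLp 2 y) *
        ENNReal.ofReal (Real.exp (-‖(WithLp.toLp 2 y : E 2)‖ ^ 2)))
        (g := fun z : Fin n → ℝ => ENNReal.ofReal (∑ i, z i ^ 2) * gw n 1 z)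
        (hg3.comp (PiLp.continuous_toLp 2 _).measurable).aemeasurable hss.aemeasurable).symm
    rw [h8]
    -- away from the null set `y = 0`
    have hnull : ∀ᵐ p : (Fin 3 → ℝ) × (Fin n → ℝ), p.1 ≠ 0 := by
      have h9 : ∀ᵐ y : Fin 3 → ℝ, y ≠ 0 := by
        rw [ae_iff]
        simp only [not_not]
        have : {a : Fin 3 → ℝ | a = 0} = {0} := rfl
        rw [this]
        exact measure_singleton _
      exact Measure.quasiMeasurePreserving_fst.ae h9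
    refine lintegral_mono_ae ?_
    filter_upwards [hnull] with p hp
    have hy : (WithLp.toLp 2 p.1 : E 2) ≠ 0 := by
      intro h
      apply hp
      have := congrArg WithLp.ofLp h
      simpa using this
    have hny : 0 < ‖(WithLp.toLp 2 p.1 : E 2)‖ := norm_pos_iff.2 hy
    by_cases hx : psi n p ∈ D
    · have hx' := hx
      rw [hD, mem_ofPred_eq, pi3_psi, norm_psi] at hx'
      rw [hH, indicator_of_mem hx, pi3_psi, norm_psi, neg_add, Real.exp_add,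
        ENNReal.ofReal_mul (Real.exp_pos _).le, hG']
      simp only
      have h9 : (1 : ℝ≥0∞) ≤ ENNReal.ofReal ((‖(WithLp.toLp 2 p.1 : E 2)‖ ^ 2)⁻¹) *
          ENNReal.ofReal (∑ i, p.2 i ^ 2) := by
        rw [← ENNReal.ofReal_mul (by positivity), ← ENNReal.ofReal_one]
        refine ENNReal.ofReal_le_ofReal ?_
        rw [inv_mul_eq_div, le_div_iff₀ (by positivity)]
        linarith
      have h10 : ENNReal.ofReal (Real.exp (-∑ i, p.2 i ^ 2)) = gw n 1 p.2 := by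
        rw [gw, neg_one_mul]
      rw [h10]
      calc G (WithLp.toLp 2 p.1) * (ENNReal.ofReal (Real.exp (-‖(WithLp.toLp 2 p.1 : E 2)‖ ^ 2)) * gw n 1 p.2)
          = (G (WithLp.toLp 2 p.1) * (ENNReal.ofReal (Real.exp (-‖(WithLp.toLp 2 p.1 : E 2)‖ ^ 2)) *
              gw n 1 p.2)) * 1 := (mul_one _).symm
        _ ≤ (G (WithLp.toLp 2 p.1) * (ENNReal.ofReal (Real.exp (-‖(WithLp.toLp 2 p.1 : E 2)‖ ^ 2)) *
              gw n 1 p.2)) * (ENNReal.ofReal ((‖(WithLp.toLp 2 p.1 : E 2)‖ ^ 2)⁻¹) *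
          ENNReal.ofReal (∑ i, p.2 i ^ 2)) := by gcongr
        _ = _ := by ring
    · rw [hH, indicator_of_notMem hx, zero_mul]
      exact zero_le
  rw [h1, h4] at h7
  rw [h5] at h2
  obtain ⟨I, hI⟩ : ∃ I : ℝ≥0∞, I = ∫⁻ x : Sph 2, G (x : E 2) ∂(vol 2) := ⟨_, rfl⟩
  rw [← hI] at h2 h7
  rw [← ENNReal.mul_le_mul_iff_left hγE ENNReal.ofReal_ne_top]
  refine h7.trans ?_
  rw [mul_assoc, ← h2]
  have h8 : ENNReal.ofReal ((2 * k / c + 1) / d) * (ENNReal.ofReal c * (I * (ENNReal.ofReal ((d + 1) / 2) *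
      ENNReal.ofReal g1))) = ENNReal.ofReal ((2 * k / c + 1) / d * c * ((d + 1) / 2)) * (I * ENNReal.ofReal g1) := by
    rw [ENNReal.ofReal_mul (by positivity), ENNReal.ofReal_mul (by positivity)]
    ring
  rw [h8]
  refine mul_le_mul_left (ENNReal.ofReal_le_ofReal ?_) _
  have hdp : 0 < d := by linarith
  have h9 : (2 * k / c + 1) / d * c * ((d + 1) / 2) = (2 * k + c) * ((d + 1) / (2 * d)) := by
    field_simp
  rw [h9]
  have h10 : 1 / 2 ≤ (d + 1) / (2 * d) := by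
    rw [div_le_div_iff₀ (by norm_num) (by positivity)]
    linarith
  nlinarith

end Pool.Agent.Q79.TG
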